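import Pool.Agent.H90.Cdc.Graph

/-!
# The cycle double cover conjecture

For every finite simple graph without cut edges there are eight families of cycles (the cycles of
one family are pairwise edge-disjoint) such that every edge lies in exactly two of the cycles.

Proof: by the eight-flow theorem there is a nowhere-zero `F₂³`-flow `t`.  One shows that every
such flow is induced by a cover: after expanding to a subcubic graph there are `s e` with
`∑ (s e × t e + q (t e)) = 0` at every vertex, `q` being the quadratic map whose polarisation is
the cross product (Fredholm alternative and a pointwise identity), and at a vertex of degree three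
this linear condition forces that every colour occurs an even number of times among the six
values `s e`, `s e + t e`.  The eight even subgraphs are `{e | c ∈ {s e, s e + t e}}`.
-/

set_option autoImplicit false
open scoped Classical

namespace Pool.Agent.Results.MP_781dd6_co.CycleDoubleCover

theorem result (V : Type) [Fintype V] (G : SimpleGraph V)
    (hb : ∀ u v : V, G.Adj u v → (G.deleteEdges {s(u, v)}).Reachable u v) :
    ∃ C : Fin 8 → List (Σ v : V, G.Walk v v),
      (∀ i, ∀ c ∈ C i, c.2.IsCycle) ∧
      (∀ i, (C i).Pairwise fun c d => c.2.edges.Disjoint d.2.edges) ∧
      ∀ e ∈ G.edgeSet, ∑ i, ((C i).filter fun c => decide (e ∈ c.2.edges)).length = 2 :=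
  Pool.Agent.H90.Cdc.cdc hb

end Pool.Agent.Results.MP_781dd6_co.CycleDoubleCover
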