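import Pool.Agent.H74.OLP.Asm

/-!
# Oriented cycle double covers of locally planar cubic graphs

Cyclically 5-edge-connected cubic graphs with a locally planar embedding in some closed surface
(orientable or not) have oriented cycle double covers.
-/

set_option autoImplicit false
open scoped Classical

namespace Pool.Agent.Results.MP_781dd6_co.LocallyPlanar

/-- The edge `e` has one end in `W` and the other end outside `W`. -/
def Crosses {V : Type} (W : Set V) (e : Sym2 V) : Prop := ∃ u v, e = s(u, v) ∧ u ∈ W ∧ v ∉ W

/-- Let `G` be a finite simple cubic graph such that any two complementary sets with at least 3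
vertices each are joined by at least 5 edges, and let `c f` be cycles covering every edge exactly
twice (the faces of an embedding in a closed surface) with `|V| + 4 ≤ 2 |F| + 2 k` (Euler genus at
most `k`). If every dual cycle of length less than `60 * 5 ^ k` is an edge cut, then there is a
list of cycles, each traversed in a direction, such that every edge is traversed exactly once in
each of its two directions. -/
theorem result (V F : Type) [Fintype V] [Fintype F] (G : SimpleGraph V)
    (c : F → Σ v : V, G.Walk v v) (k : ℕ)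
    (hcub : ∀ v, Nat.card {u // G.Adj v u} = 3)
    (hcon : ∀ W : Set V, 3 ≤ W.ncard → 3 ≤ Wᶜ.ncard → 5 ≤ {e ∈ G.edgeSet | Crosses W e}.ncard)
    (hcyc : ∀ f, (c f).2.IsCycle)
    (hcov : ∀ e ∈ G.edgeSet, Nat.card {f // e ∈ (c f).2.edges} = 2)
    (hgen : Fintype.card V + 4 ≤ 2 * Fintype.card F + 2 * k)
    (hloc : ∀ m, 2 ≤ m → m < 60 * 5 ^ k → ∀ (g : ℕ → F) (e : ℕ → Sym2 V),
      (∀ i < m, ∀ j < m, g i = g j → i = j) → (∀ i < m, ∀ j < m, e i = e j → i = j) →
      g m = g 0 → (∀ i < m, e i ∈ (c (g i)).2.edges ∧ e i ∈ (c (g (i + 1))).2.edges) →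
      ∃ W : Set V, ∀ x ∈ G.edgeSet, Crosses W x ↔ ∃ i < m, e i = x) :
    ∃ C : List (Σ v : V, G.Walk v v), (∀ c ∈ C, c.2.IsCycle) ∧
      ∀ u v : V, G.Adj u v →
        (C.map (fun c => (c.2.darts.filter (fun d => decide (d.toProd = (u, v)))).length)).sum = 1 :=
  Pool.Agent.H74.OLP.a_MAIN V F G c k hcub hcon hcyc hcov hgen hloc

end Pool.Agent.Results.MP_781dd6_co.LocallyPlanar
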