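import Pool.Agent.H90.Cdc.Two

/-!
# Oriented `2t`-covers of bridgeless graphs for every `t ≥ 2`

For every finite simple graph without cut edges and every integer `t ≥ 2` there is a list of
directed cycles (each of length at least 3) using every arc (every edge in each of its two
directions) exactly `t` times.
-/

set_option autoImplicit false
open scoped Classical

namespace Pool.Agent.Results.MP_781dd6_co.OrientedCovers

theorem result :
    ∀ (V : Type) [Fintype V] (G : SimpleGraph V),
      (∀ u v : V, G.Adj u v → (G.deleteEdges {s(u, v)}).Reachable u v) →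
      ∀ t : ℕ, 2 ≤ t →
      ∃ C : List (Σ v : V, G.Walk v v),
        (∀ c ∈ C, c.2.IsCycle) ∧
        ∀ u v : V, G.Adj u v →
          (C.map (fun c =>
            (c.2.darts.filter (fun d => decide (d.toProd = (u, v)))).length)).sum = t := by
  intro V _ G hb t ht
  obtain ⟨C, hC, hC2⟩ := (Pool.Agent.H90.Cdc.cover_ge_two hb t ht).toCycles
  exact ⟨C, hC, hC2⟩

end Pool.Agent.Results.MP_781dd6_co.OrientedCovers
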