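import Pool.Agent.H69.OC.All

/-!
# Oriented cycle double covers of toroidal graphs

Every finite simple graph without cut edges all of whose components have orientable genus at
most 1 has an oriented cycle double cover.
-/

set_option autoImplicit false
open scoped Classical

namespace Pool.Agent.Results.MP_781dd6_co.ToroidalGraphs

/-- `σ` is a rotation system of `G`: a permutation of the darts that keeps the first vertex and
is transitive on the darts with a given first vertex. -/
structure IsRotation {V : Type} (G : SimpleGraph V) (σ : Equiv.Perm G.Dart) : Prop where
  fst : ∀ d : G.Dart, (σ d).fst = d.fst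
  cyc : ∀ d d' : G.Dart, d.fst = d'.fst → σ.SameCycle d d'

/-- The permutation `d ↦ σ (reverse of d)`; its cycles are the faces. -/
def facePerm {V : Type} (G : SimpleGraph V) (σ : Equiv.Perm G.Dart) : Equiv.Perm G.Dart where
  toFun := fun d => σ d.symm
  invFun := fun d => (σ⁻¹ d).symm
  left_inv := fun d => by simp
  right_inv := fun d => by simp

/-- number of vertices of a component -/
noncomputable def numVertices {V : Type} (G : SimpleGraph V) (K : G.ConnectedComponent) : ℕ :=
  Nat.card {v : V // G.connectedComponentMk v = K}

/-- number of edges of a component -/
noncomputable def numEdges {V : Type} (G : SimpleGraph V) (K : G.ConnectedComponent) : ℕ :=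
  Nat.card {e : Sym2 V // e ∈ G.edgeSet ∧ ∀ v ∈ e, G.connectedComponentMk v = K}

/-- number of faces of a component: cycles of `facePerm` through a dart of the component -/
noncomputable def numFaces {V : Type} (G : SimpleGraph V) (σ : Equiv.Perm G.Dart)
    (K : G.ConnectedComponent) : ℕ :=
  Nat.card {c : Quotient (Equiv.Perm.SameCycle.setoid (facePerm G σ)) //
    ∃ d : G.Dart, G.connectedComponentMk d.fst = K ∧ Quotient.mk _ d = c}

/-- Every finite simple graph without cut edges, all of whose components have orientable genus at
most 1 (`E ≤ V + F` for a rotation system), has a list of cycles, each traversed in a direction,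
such that every edge is traversed exactly once in each of its two directions. -/
theorem result (V : Type) [Fintype V] (G : SimpleGraph V)
    (hb : ∀ u v : V, G.Adj u v → (G.deleteEdges {s(u, v)}).Reachable u v)
    (σ : Equiv.Perm G.Dart) (hσ : IsRotation G σ)
    (hg : ∀ K : G.ConnectedComponent, numEdges G K ≤ numVertices G K + numFaces G σ K) :
    ∃ C : List (Σ v : V, G.Walk v v),
      (∀ c ∈ C, c.2.IsCycle) ∧
      ∀ u v : V, G.Adj u v →
        (C.map (fun c => (c.2.darts.filter (fun d => decide (d.toProd = (u, v)))).length)).sum = 1 :=
  Pool.Agent.H69.OC.main_all V G hb σ hσ.fst hσ.cyc hg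

end Pool.Agent.Results.MP_781dd6_co.ToroidalGraphs
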